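import Pool.Agent.T2H35.FJL.Fin

/-!
# Extensions whose kernel is a finitary linear group

`C` is any class of groups with the closure properties `ClosedE C` and `D` is a division ring such that the
groups `GL_n(D)` are in `C`. For the class of groups which satisfy the Full Farrell-Jones Conjecture (in
particular in L-theory, with coefficients) the closure properties are published, and so is
`GL_n(D) ∈ C` for number fields and finite-dimensional division algebras over `ℚ`, for their locally
finite-dimensional unions, and for global function fields.

Let `V` be a vector space over `D` of any dimension, and let `N` be a group of linear automorphisms of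
`V` which are finitary: `x - 1` has finite rank for all `x` in `N`. Let `N` be a normal subgroup of `G` with
`G ⧸ N` in `C`, and let the conjugation by each element of `G` on `N` be induced by some linear
automorphism of `V` (for instance, `G` is any group of linear automorphisms of `V` and `N` consists of
its finitary elements). Then `G` is in `C`.

Outline of the proof. By the realization criterion it suffices to find, for `g` in `G` and a finite
subset `E` of `N`, a group in `C` which contains the group `H` generated by `E` and `g E g⁻¹` and in which
the conjugation by `g` on `E` is inner. Let `U₁` be the sum of the images of the `x - 1` and `W₁` the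
intersection of the kernels of the `x - 1`, for `x` in `E`, and let `T` induce the conjugation by `g`. Choose
a finite-dimensional subspace `U` which contains `U₁` and `T U₁` and a complement of `W₁ ∩ T W₁`. Then `H`
acts faithfully on `U`, and a dimension count gives an automorphism `p` of `U` with `p = T` on `U₁` and
`p = T` modulo `T W₁`. It induces the conjugation by `g` on `E`.
-/

set_option autoImplicit false

namespace Pool.Agent.Results.MP_8a3537_gt.FinitaryLinearKernels

open Pool.Agent.Y110.FJ

theorem result (C : ∀ (G : Type) [Group G], Prop) (hC : ClosedE C) (D : Type) [DivisionRing D]
    (hGL : ∀ n : ℕ, C (LinearMap.GeneralLinearGroup D (Fin n → D)))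
    (G : Type) [Group G] (N : Subgroup G) [N.Normal] (hN : C (G ⧸ N))
    (V : Type) [AddCommGroup V] [Module D V]
    (ρ : N →* LinearMap.GeneralLinearGroup D V) (hρ : Function.Injective ρ)
    (hfin : ∀ x : N, FiniteDimensional D
      (LinearMap.range ((ρ x : V →ₗ[D] V) - (LinearMap.id : V →ₗ[D] V))))
    (hT : ∀ g : G, ∃ T : LinearMap.GeneralLinearGroup D V, ∀ x y : N,
      (y : G) = g * x * g⁻¹ → ρ y = T * ρ x * T⁻¹) : C G :=
  Pool.Agent.T2H35.FJL.main hC hGL N hN ρ hρ hfin hT

end Pool.Agent.Results.MP_8a3537_gt.FinitaryLinearKernels
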