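import Pool.Agent.T2H35.FJT.Stab

/-!
# Kernels that act on trees with stabilizers of finite rank

`C` is any class of groups with the closure properties `ClosedE C` which contains the metabelian
groups (`Met C`), the groups `F ⋊ Z` for all free groups `F` and all automorphisms of `F` (`FbC C`) and
the groups `GL_n(ℚ)`. All this is published for the class of groups which satisfy the Full
Farrell-Jones Conjecture (in particular in L-theory, with coefficients).

Let `1 = A 0 ≤ A 1 ≤ ...` be subgroups of `G` such that each `A (j + 1) ⧸ A j` is torsion-free abelian of
finite rank and each `A j` is commensurable with all its conjugates in `G`. Let `N` be a normal subgroup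
of `G` with `G ⧸ N` in `C`, and let `N` act on a tree without inversions such that the vertex stabilizers
are commensurable, have a subgroup of finite index in `A c` for some fixed `c`, and the orders of their
finite subgroups are bounded. Then `G` is in `C`.

So `N` may be the fundamental group of a graph of torsion-free groups with edge groups of finite index
in the vertex groups, where one vertex group is `A c`. `G` need not act on the tree. With `G = N` the
theorem says that such fundamental groups are in `C`.

Outline of the proof. `G` acts on the rational vector spaces of the factors `A (j + 1) ⧸ A j`, because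
each element of `G` conjugates a subgroup of finite index of `A j` into `A j`. Let `Z'` be the kernel of this
action. The elements of `Z'` whose commutators with a suitable subgroup of finite index of each `A j` are
in `A (j - k)` form a normal subgroup `Z' k` of `G`, and the factors `Z' k ⧸ Z' (k + 1)` are abelian, as in
the theorem of Kaloujnine on stability groups. So `Z = Z' c` is a normal subgroup of `G` with `G ⧸ Z` in
`C`, and its elements centralize subgroups of finite index of the stabilizers. Put `M = N ∩ Z`. The
rational abelianizations of the stabilizers of `M` patch to a homomorphism from `M` to a rational vector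
space, so that the commutator subgroup `K` of `M` acts with finite stabilizers of bounded order. Then `K`
has a free normal subgroup `D`, normal in `G`, with `K ⧸ D` locally finite.
-/

set_option autoImplicit false

namespace Pool.Agent.Results.MP_8a3537_gt.FiniteRankTreeKernels

open Pool.Agent.Y110.FJ Pool.Agent.R684.FP Pool.Agent.T2H35.FJT MulAction

theorem result (C : ∀ (G : Type) [Group G], Prop) (hC : ClosedE C) (hmet : Met C) (hF : FbC C)
    (hGL : ∀ n : ℕ, C (Matrix (Fin n) (Fin n) ℚ)ˣ)
    (G : Type) [Group G] (A : ℕ → Subgroup G) (r : ℕ → ℕ)
    (q : ∀ j : ℕ, A (j + 1) →* Multiplicative (Fin (r j) → ℚ))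
    (hA0 : A 0 = ⊥) (hle : ∀ j, A j ≤ A (j + 1))
    (hq : ∀ j (a : A (j + 1)), q j a = 1 ↔ (a : G) ∈ A j)
    (hA : ∀ j (g : G), ((A j).map (MulAut.conj g).toMonoidHom).relIndex (A j) ≠ 0)
    (N : Subgroup G) [N.Normal] (hN : C (G ⧸ N))
    (V : Type) [MulAction N V] (T : SimpleGraph V) (hT : T.IsTree)
    (hadj : ∀ (x : N) (u v : V), T.Adj u v → T.Adj (x • u) (x • v))
    (hinv : ∀ (x : N) (u v : V), T.Adj u v → ¬ (x • u = v ∧ x • v = u))
    (hcom : ∀ u v : V, (stabilizer N u).relIndex (stabilizer N v) ≠ 0)
    (c : ℕ) (hc : ∀ v : V, (A c).relIndex ((stabilizer N v).map N.subtype) ≠ 0)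
    (m : ℕ) (hm : ∀ (v : V) (F : Subgroup N), F ≤ stabilizer N v → Finite F → Nat.card F ≤ m) :
    C G := by
  obtain ⟨Z, hZn, hZ, hz⟩ := exists_cent hC hmet hGL (A := A) (r := r) (q := q)
    ⟨hA0, hle, hq, hA⟩ c
  exact main1 hC hmet hF N Z hN hZ T hT hadj hinv hcom
    (fun z hzZ v => Subgroup.relIndex_ne_zero_trans (hz z hzZ) (hc v)) m hm

end Pool.Agent.Results.MP_8a3537_gt.FiniteRankTreeKernels
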