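import Pool.Agent.T2H65.FF.Main

/-!
# Extensions whose kernel has a subnormal series with non-abelian free factors

`C` is any class of groups with the closure properties `ClosedE C` which contains the groups `F ⋊ Z` for
all free groups `F` and all automorphisms of `F`. All this is published for the class of groups which
satisfy the K- and L-theoretic Farrell–Jones conjecture with coefficients and finite wreath products; the
torsion-free groups in this class satisfy the conjecture of the problem.

Call a group `K` good if `C` is closed under extensions with kernel `K` (`GoodKer C K`: if a group `G` has
a normal subgroup `L` isomorphic to `K` such that `G ⧸ L` is in `C`, then `G` is in `C`). For instance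
free groups are good, and for the class of the conjecture also virtually solvable groups, hyperbolic
groups which are virtually torsion-free and finitely generated right-angled Artin groups are known to be
good. Good groups are in `C`, and if `N` is good then all `N ⋊ Z` are in `C`.

The theorem: let `N` be a group with a chain of finitely generated subgroups
`A 0 ⊴ A 1 ⊴ ⋯ ⊴ A n = N`, each normal in the next one (but not necessarily in `N`), such that `A 0` is
good and each factor `A (i + 1) ⧸ A i` is good and large, for instance a non-abelian free group. Then `N`
is good. With `A 0 = 1` or `A 0` free these are the poly-(finitely generated non-abelian free) groups. The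
subgroups `A i` need not be invariant under automorphisms of `N`.

A group `Q` is large if each nontrivial finitely generated normal subgroup of `Q` has finite index, and
if for some epimorphism `e` from `Q` to the integers there are two crossed homomorphisms from `Q` to the
Laurent polynomials `ℚ[t, t⁻¹]`, on which `x` acts by `t ^ e x`, which are linearly independent over
`ℚ(t)`. Non-abelian free groups are large (first part of the theorem). The fundamental groups of closed
surfaces of negative Euler characteristic and the non-abelian limit
groups have these properties, too.

Outline of the proof. Let `N` be a finitely generated group and `Q` a large group. Then there are only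
finitely many normal subgroups `K` of `N` which are finitely generated and have quotient `N ⧸ K`
isomorphic to `Q`. So if `N` is normal in `G` and `K` is one of them, a subgroup of finite index in `G`
normalizes `K`, and one can argue by induction. To prove the finiteness, suppose there are infinitely
many `K_i`, with characters `e_i : N → N ⧸ K_i = Q → ℤ`. The crossed homomorphisms `N → ℚ(t)` are the
functionals on a finitely generated module over the Noetherian ring `ℚ[N_ab]`. The annihilator of the
module is finitely generated and vanishes under all `t ^ e_i`. Considering the finitely many patterns of
coincidences of the values of the `e_i` on the supports of the generators, one finds `i ≠ j` such that it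
vanishes under `t ^ e_i u ^ e_j`. So there is a nontrivial crossed homomorphism from `N` to the Laurent
series `ℚ((X))`, on which `n` acts by `2 ^ e_i(n) (1 + X) ^ e_j(n)`. Reducing it modulo a suitable power
of `X`, on `N` and on `K_i`, one gets either a nonzero homomorphism from the finitely generated group
`K_i` to `ℚ` which is multiplied by `2` by the conjugation with some element of `N`, which is absurd, or
the crossed homomorphism was trivial.
-/

set_option autoImplicit false

namespace Pool.Agent.Results.MP_8a3537_gt.FreeFactorSeries

open Pool.Agent.Y110.FJ Pool.Agent.T2H65.FF

theorem result (C : ∀ (G : Type) [Group G], Prop) (hC : ClosedE C)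
    (hF : ∀ (X : Type) (α : MulAut (FreeGroup X)),
      C (FreeGroup X ⋊[zpowersHom (MulAut (FreeGroup X)) α] Multiplicative ℤ)) :
    (∀ X : Type, GoodKer C (FreeGroup X) ∧ (Nontrivial X → Large (FreeGroup X))) ∧
    ∀ (N : Type) [Group N] (n : ℕ) (A : ℕ → Subgroup N), A n = ⊤ → (∀ i ≤ n, (A i).FG) →
      GoodKer C (A 0) →
      (∀ i < n, A i ≤ A (i + 1) ∧ ∃ (Q : Type) (_ : Group Q) (q : A (i + 1) →* Q),
        Function.Surjective q ∧ q.ker = (A i).subgroupOf (A (i + 1)) ∧ Large Q ∧ GoodKer C Q) →
      GoodKer C N :=
  ⟨fun X => ⟨free_good hC hF X, fun _ => free_large X⟩, fun N _ n A => series hC n N A⟩

end Pool.Agent.Results.MP_8a3537_gt.FreeFactorSeries
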