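import Pool.Agent.T2H65.GP.FinIdx

/-!
# Extensions whose kernel is a graph product with permuted vertex groups

`C` is any class of groups with the closure properties `ClosedE C` which contains the groups `F ⋊ Z` for
all free groups `F` and all automorphisms of `F`. All this is published for the class of groups which
satisfy the K- and L-theoretic Farrell–Jones conjecture with coefficients and finite wreath products; the
torsion-free groups in this class satisfy the conjecture of the problem.

Let `N` be a normal subgroup of `G` which is the internal graph product, over a finite graph with vertex
set `V`, of subgroups `A v`. Let `S` be a set of vertices such that the conjugation by each element of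
`G` permutes the `N`-conjugacy classes of the subgroups `A v` with `v ∈ S`. Let `K` be the normal closure
of these `A v`. If `G ⧸ K` is in `C`, and `A v ⟨g⟩` is in `C` for all `v ∈ S` and all `g` in `G` that
normalize `A v`, then `G` is in `C`.

The elements of `G` may conjugate the different `A v` by different elements of `N`. For instance let
`N` be the right-angled Artin group of a finite graph in which no link of a vertex is contained in the
star of another vertex. Then by the theorem of Laurence and Servatius the condition on the classes
holds for all extensions `G` of `N` with `S = V`, and `G` is in `C` as soon as `G ⧸ N` is in `C`.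

Outline of the proof.

* A subgroup of finite index of `G` preserves the `N`-conjugacy classes of all `A v` with `v ∈ S`.
* The kernel of the retraction of `N` to the graph product of the vertex groups other than `A v` is the
  free product of the conjugates `u (A v) u⁻¹`, where `u` runs through the cosets in the graph product
  of the others of the one of the vertex groups adjacent to `v`; to see this, one maps `N` to the
  semidirect product of a free product of copies of `A v` and the graph product of the others, which
  permutes the factors. By the theorem on extensions by free products
  (`MP_490288_al.FreeProductExtensions`) one may divide out this kernel.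
* The normalizers in the quotient are lifted with the sections of the retractions.
-/

set_option autoImplicit false

namespace Pool.Agent.Results.MP_8a3537_gt.PermutedVertexGroups

open Pool.Agent.Y110.FJ Pool.Agent.T2H65.GP

theorem result (C : ∀ (G : Type) [Group G], Prop) (hC : ClosedE C)
    (hF : ∀ (X : Type) (α : MulAut (FreeGroup X)),
      C (FreeGroup X ⋊[zpowersHom (MulAut (FreeGroup X)) α] Multiplicative ℤ))
    (G V : Type) [Group G] [Finite V] (Λ : SimpleGraph V) (N : Subgroup G) [N.Normal]
    (A : V → Subgroup G) (hA : IsGraphProd Λ N A) (S : Set V)
    (hperm : ∀ v ∈ S, ∀ g : G, ∃ w ∈ S, ∃ n ∈ N, ∀ x, x ∈ A v ↔ n * (g * x * g⁻¹) * n⁻¹ ∈ A w)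
    (hcyc : ∀ v ∈ S, ∀ g : G, (∀ x, x ∈ A v ↔ g * x * g⁻¹ ∈ A v) →
      C ↥(A v ⊔ Subgroup.zpowers g))
    (hQ : C (G ⧸ Subgroup.normalClosure {x : G | ∃ v ∈ S, x ∈ A v})) : C G :=
  main_perm hC hF Λ N inferInstance A hA S hperm hcyc hQ

end Pool.Agent.Results.MP_8a3537_gt.PermutedVertexGroups
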